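import Pool.Agent.J4H62.SX.MeanLp
import Pool.Agent.J4H62.SX.Alg
import Pool.Agent.Y644.QS.Final

set_option autoImplicit false

/-!
# A randomised shadow vertex rule for all linear programs of bounded circuit imbalance

Linear programs `max c x`, `A x ≤ b`, `x ≥ 0`. The circuit imbalance `κ` of `A` bounds the
coefficients in all representations of an inequality normal (a row of `A` or a unit vector) by
linearly independent ones; it is `1` for totally unimodular matrices and at most `Δ` if `A` is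
integral and all subdeterminants are at most `Δ`. The matrix may be scaled: `ρ_i A_ij σ_j`.

(1) Real data. Start at any vertex `v`, with any `n` linearly independent tight inequalities. Let
the start objective be their sum with independent uniform weights in `[1, 2]`. Then the shadow vertex
rule, which moves along edges with strictly increasing `c x`, reaches the end after at most
`18 n ^ 4 κ ^ 3` pivots in expectation. There is no dependence on `m`, `b`, `c`.

(2) The bit model. There is one polynomial time algorithm which has a table of random numbers in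
addition to the linear program and its start vertex. All answers are correct strictly improving
simplex paths. For every `L` all but the fraction `2 ^ (-L)` of the tables are good for all linear
programs (and scalings, and start vertices) of size at most `L` at the same time: the simplex path is
found whenever `72 n ^ 4 κ ^ 3` pivots are allowed.

The bound for the number of vertices on the shadow path with large probability, for a single linear
program, and the fact that most tables are good for all programs, are in the starting files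
`Pool/Agent/N477/{MD1-8, RS1-10}`, an unfinished project without a final theorem. New here: the
expectation instead of a tail bound, unbounded polyhedra with scalings, runs of the rule for almost
all weights, the scaled algorithm, and the statements.
-/

namespace Pool.Agent.Results.MP_4d246d_lc.BoundedImbalance

open Pool.Agent.NPC
open MeasureTheory ENNReal

/-- the polyhedron `A x ≤ b`, `x ≥ 0` -/
def Feasible {m n : ℕ} (A : Fin m → Fin n → ℝ) (b : Fin m → ℝ) : Set (Fin n → ℝ) :=
  {x | (∀ i, ∑ j, A i j * x j ≤ b i) ∧ ∀ j, 0 ≤ x j}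

/-- the linear function `c x` -/
def val {n : ℕ} (c x : Fin n → ℝ) : ℝ := ∑ j, c j * x j

/-- `x` maximises the linear function `c` on `P` -/
def Optimal {n : ℕ} (P : Set (Fin n → ℝ)) (c x : Fin n → ℝ) : Prop :=
  x ∈ P ∧ ∀ y ∈ P, val c y ≤ val c x

/-- A pivot of the shadow vertex rule with the start objective `z`: `x` and `y` are vertices of `P`
joined by an edge on which the objective `c` increases, and no point `u` of `P` with `c x < c u`
has a larger slope `z (u - x) / c (u - x)` than `y`. -/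
def ShadowPivot {n : ℕ} (P : Set (Fin n → ℝ)) (c z x y : Fin n → ℝ) : Prop :=
  x ∈ P.extremePoints ℝ ∧ y ∈ P.extremePoints ℝ ∧ IsExposed ℝ P (segment ℝ x y) ∧
    val c x < val c y ∧ ∀ u ∈ P, val c x < val c u →
      val z (u - x) * val c (y - x) ≤ val z (y - x) * val c (u - x)

/-- The shadow vertex rule finds an unbounded edge at `x` in the direction `d`, on which the
objective `c` increases. -/
def ShadowRay {n : ℕ} (P : Set (Fin n → ℝ)) (c z x d : Fin n → ℝ) : Prop :=
  IsExposed ℝ P {y | ∃ t : ℝ, 0 ≤ t ∧ y = x + t • d} ∧ 0 < val c d ∧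
    ∀ u ∈ P, val c x < val c u → val z (u - x) * val c d ≤ val z d * val c (u - x)

/-- `x 0, …, x N` are `N` successive pivots of the shadow vertex rule from the vertex `v` -/
def ShadowRun {n : ℕ} (P : Set (Fin n → ℝ)) (c z v : Fin n → ℝ) (N : ℕ)
    (x : ℕ → Fin n → ℝ) : Prop :=
  x 0 = v ∧ ∀ k < N, ShadowPivot P c z (x k) (x (k + 1))

/-- the outer normal vectors of the inequalities: the rows of `A`, and minus the unit vectors -/
def normal {m n : ℕ} (A : Fin m → Fin n → ℝ) : Fin m ⊕ Fin n → Fin n → ℝ :=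
  Sum.elim A fun j => -Pi.single j 1

/-- the right hand sides of the inequalities -/
def rhs {m : ℕ} (n : ℕ) (b : Fin m → ℝ) : Fin m ⊕ Fin n → ℝ := Sum.elim b fun _ => 0

/-- The circuit imbalance of `A` is at most `κ`: if a normal vector is a linear combination of `n`
linearly independent normal vectors then the coefficients are at most `κ` in absolute value. -/
def Imbalance {m n : ℕ} (A : Fin m → Fin n → ℝ) (κ : ℝ) : Prop :=
  ∀ (B : Fin n → Fin m ⊕ Fin n) (l : Fin m ⊕ Fin n) (β : Fin n → ℝ),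
    LinearIndependent ℝ (fun k => normal A (B k)) →
      normal A l = ∑ k, β k • normal A (B k) → ∀ k, |β k| ≤ κ

/-- the matrix with scaled rows and columns -/
def scaled {m n : ℕ} (ρ : Fin m → ℝ) (σ : Fin n → ℝ) (A : Fin m → Fin n → ℝ) :
    Fin m → Fin n → ℝ := fun i j => ρ i * A i j * σ j

/-- `B` are `n` inequalities which are tight at `v`, with linearly independent normal vectors -/
def IsBasis {m n : ℕ} (A : Fin m → Fin n → ℝ) (b : Fin m → ℝ) (v : Fin n → ℝ)
    (B : Fin n → Fin m ⊕ Fin n) : Prop :=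
  LinearIndependent ℝ (fun k => normal A (B k)) ∧ ∀ k, val (normal A (B k)) v = rhs n b (B k)

/-- the weights of the normal vectors in the scaling -/
noncomputable def weight {m n : ℕ} (ρ : Fin m → ℝ) (σ : Fin n → ℝ) : Fin m ⊕ Fin n → ℝ :=
  Sum.elim ρ fun j => (σ j)⁻¹

/-- the start objective with the weights `μ` -/
noncomputable def start {m n : ℕ} (ρ : Fin m → ℝ) (σ : Fin n → ℝ) (A : Fin m → Fin n → ℝ)
    (B : Fin n → Fin m ⊕ Fin n) (μ : Fin n → ℝ) : Fin n → ℝ :=
  ∑ k, (μ k * weight ρ σ (B k)) • normal A (B k)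

/-- the largest number of pivots of the shadow vertex rule from `v` with the start objective `z` -/
noncomputable def pivots {n : ℕ} (P : Set (Fin n → ℝ)) (c z v : Fin n → ℝ) : ℝ≥0∞ :=
  ⨆ (N : ℕ) (_ : ∃ x, ShadowRun P c z v N x), (N : ℝ≥0∞)

/-! ### The bit model -/

/-- rational vectors as real vectors -/
noncomputable def re {n : ℕ} (x : Fin n → ℚ) : Fin n → ℝ := fun j => (x j : ℝ)

/-- the polyhedron `A x ≤ b`, `x ≥ 0` for rational data -/
def polyhedron {m n : ℕ} (A : Fin m → Fin n → ℚ) (b : Fin m → ℚ) : Set (Fin n → ℝ) :=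
  Feasible (fun i j => (A i j : ℝ)) fun i => (b i : ℝ)

/-- `x` and `y` are joined by an edge of `P` on which the objective function increases -/
def ImprovingEdge {n : ℕ} (P : Set (Fin n → ℝ)) (c x y : Fin n → ℚ) : Prop :=
  IsExposed ℝ P (segment ℝ (re x) (re y)) ∧ val (re c) (re x) < val (re c) (re y)

/-- `P` has an unbounded edge at `x`, in the direction `d`, on which the objective function
increases -/
def UnboundedEdge {n : ℕ} (P : Set (Fin n → ℝ)) (c x d : Fin n → ℚ) : Prop :=
  IsExposed ℝ P {z | ∃ t : ℝ, 0 ≤ t ∧ z = re x + t • re d} ∧ 0 < val (re c) (re d)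

/-- The vertices `x 0, …, x N` of `P` are a path of improving edges starting at `v`. It ends at a
vertex maximising the objective function (`d = none`), or at a vertex with an unbounded improving
edge in the direction `e` (`d = some e`). -/
def IsSimplexPath {n : ℕ} (P : Set (Fin n → ℝ)) (c v : Fin n → ℚ) (N : ℕ)
    (x : ℕ → Fin n → ℚ) (d : Option (Fin n → ℚ)) : Prop :=
  x 0 = v ∧ (∀ k ≤ N, re (x k) ∈ Set.extremePoints ℝ P) ∧
    (∀ k < N, ImprovingEdge P c (x k) (x (k + 1))) ∧
    (d = none → Optimal P (re c) (re (x N))) ∧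
    ∀ e, d = some e → UnboundedEdge P c (x N) e

/-- a linear program and its start vertex, with a scaling -/
structure Program where
  m : ℕ
  n : ℕ
  A : Fin m → Fin n → ℚ
  b : Fin m → ℚ
  c : Fin n → ℚ
  v : Fin n → ℚ
  ρ : Fin m → ℚ
  σ : Fin n → ℚ
  vertex : re v ∈ Set.extremePoints ℝ (polyhedron A b)
  ρ_pos : ∀ i, 0 < ρ i
  σ_pos : ∀ j, 0 < σ j

/-- the length of the scaled program with its start vertex as a bit string -/
def Program.size (p : Program) : ℕ :=
  (bits (List.ofFn fun i => List.ofFn fun j => p.ρ i * p.A i j * p.σ j,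
    List.ofFn fun i => p.ρ i * p.b i, List.ofFn fun j => p.c j * p.σ j,
    List.ofFn fun j => p.v j / p.σ j)).length

/-- the circuit imbalance of the scaled matrix is at most `κ` -/
def Program.Balanced (p : Program) (κ : ℝ) : Prop :=
  Imbalance (scaled (fun i => (p.ρ i : ℝ)) (fun j => (p.σ j : ℝ)) fun i j => (p.A i j : ℝ)) κ

/-- the program as a bit string, with a table `W` of numbers -/
def Program.input (p : Program) (W : List (List ℕ)) : List Bool :=
  bits (W, List.ofFn p.ρ, List.ofFn p.σ, List.ofFn fun i => List.ofFn (p.A i), List.ofFn p.b,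
    List.ofFn p.c, List.ofFn p.v)

/-- the same with a bound `T` for the number of pivots, in unary -/
def Program.query (p : Program) (T : ℕ) (W : List (List ℕ)) : List Bool :=
  bits (List.replicate T (), W, List.ofFn p.ρ, List.ofFn p.σ,
    List.ofFn fun i => List.ofFn (p.A i), List.ofFn p.b, List.ofFn p.c, List.ofFn p.v)

/-- the answer `x 0, …, x N` and `d` as a bit string -/
def answer {n : ℕ} (N : ℕ) (x : ℕ → Fin n → ℚ) (d : Option (Fin n → ℚ)) : List Bool :=
  bits (some ((List.range (N + 1)).map (fun k => List.ofFn (x k)), d.map List.ofFn) :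
    Option (List (List ℚ) × Option (List ℚ)))

/-- the answer that no path has been found -/
def noAnswer : List Bool := bits (none : Option (List (List ℚ) × Option (List ℚ)))

/-- the string `s` describes a correct simplex path with at most `T` pivots -/
def Program.Solved (p : Program) (T : ℕ) (s : List Bool) : Prop :=
  ∃ (N : ℕ) (x : ℕ → Fin p.n → ℚ) (d : Option (Fin p.n → ℚ)),
    IsSimplexPath (polyhedron p.A p.b) p.c p.v N x d ∧ N ≤ T ∧ s = answer N x d

/-- the tables of `2 L + 1` rows of `L` numbers with `7 L + 3` random bits -/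
abbrev Table (L : ℕ) : Type := Fin (2 * L + 1) → Fin L → Fin (2 ^ (7 * L + 3))

/-- the numbers of a table, with a leading bit -/
def Table.list {L : ℕ} (ω : Table L) : List (List ℕ) :=
  List.ofFn fun i => List.ofFn fun j => 2 ^ (7 * L + 3) + (ω i j : ℕ)

/-- the table is good for all programs of size at most `L`: with `ω` the algorithm `g` finds a
simplex path, whenever `T ≥ 72 n ^ 4 κ ^ 3` pivots are allowed -/
def Table.Good {L : ℕ} (g : List Bool → List Bool) (ω : Table L) : Prop :=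
  ∀ (p : Program) (κ : ℝ) (T : ℕ), p.size ≤ L → p.Balanced κ → 1 ≤ T →
    72 * (p.n : ℝ) ^ 4 * κ ^ 3 ≤ T → p.Solved T (g (p.query T ω.list))

/-! ### Proofs: real data -/

open Pool.Agent.N477 Pool.Agent.J4H62.SX

theorem feasible_eq {m n : ℕ} (A : Fin m → Fin n → ℝ) (b : Fin m → ℝ) :
    Feasible A b = MD.Poly (RS.arow A) (RS.arhs b) := by
  ext x
  exact RS.mem_arow.symm

theorem rowsP_eq {m n : ℕ} (ρ : Fin m → ℝ) (σ : Fin n → ℝ) (A : Fin m → Fin n → ℝ)
    (p : Fin m ⊕ Fin n) : MD.rowsP ρ (fun j => (σ j)⁻¹) (Matrix.of A) p =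
      weight ρ σ p • normal A p := by
  rcases p with i | j
  · rfl
  · show -Pi.single j ((σ j)⁻¹) = (σ j)⁻¹ • -(Pi.single j 1 : Fin n → ℝ)
    rw [smul_neg, ← Pi.single_smul, smul_eq_mul, mul_one]

theorem weight_pos {m n : ℕ} {ρ : Fin m → ℝ} {σ : Fin n → ℝ} (hρ : ∀ i, 0 < ρ i)
    (hσ : ∀ j, 0 < σ j) (p : Fin m ⊕ Fin n) : 0 < weight ρ σ p := by
  rcases p with i | j
  · exact hρ i
  · exact inv_pos.2 (hσ j)

theorem li_scaled {m n : ℕ} {ρ : Fin m → ℝ} {σ : Fin n → ℝ} (hρ : ∀ i, 0 < ρ i)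
    (hσ : ∀ j, 0 < σ j) {A : Fin m → Fin n → ℝ} {B : Fin n → Fin m ⊕ Fin n}
    (h : LinearIndependent ℝ (fun k => normal A (B k))) :
    LinearIndependent ℝ (fun k => MD.rowsP ρ (fun j => (σ j)⁻¹) (Matrix.of A) (B k)) := by
  have e : (fun k => MD.rowsP ρ (fun j => (σ j)⁻¹) (Matrix.of A) (B k)) =
      (fun k => Units.mk0 (weight ρ σ (B k)) (weight_pos hρ hσ _).ne') •
        fun k => normal A (B k) := by
    funext k
    rw [rowsP_eq]
    rfl
  rw [e]
  exact h.units_smul _

/-- the change of variables on linear functionals -/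
noncomputable def E {n : ℕ} (σ : Fin n → ℝ) (hσ : ∀ j, 0 < σ j) : (Fin n → ℝ) ≃ₗ[ℝ] (Fin n → ℝ) :=
  LinearEquiv.piCongrRight fun j => LinearEquiv.smulOfUnit (Units.mk0 (σ j) (hσ j).ne')

theorem E_apply {n : ℕ} (σ : Fin n → ℝ) (hσ : ∀ j, 0 < σ j) (w : Fin n → ℝ) (j : Fin n) :
    E σ hσ w j = σ j * w j := rfl

theorem E_rows {m n : ℕ} {ρ : Fin m → ℝ} {σ : Fin n → ℝ} (hσ : ∀ j, 0 < σ j)
    (A : Fin m → Fin n → ℝ) (p : Fin m ⊕ Fin n) :
    E σ hσ (MD.rowsP ρ (fun j => (σ j)⁻¹) (Matrix.of A) p) = normal (scaled ρ σ A) p := by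
  ext j'
  rw [E_apply]
  rcases p with i | j
  · show σ j' * (ρ i * A i j') = ρ i * A i j' * σ j'
    ring
  · show σ j' * (-(Pi.single j ((σ j)⁻¹) : Fin n → ℝ)) j' = (-(Pi.single j 1 : Fin n → ℝ)) j'
    rw [Pi.neg_apply, Pi.neg_apply]
    by_cases h : j' = j
    · subst h
      rw [Pi.single_eq_same, Pi.single_eq_same, mul_neg, mul_inv_cancel₀ (hσ j').ne']
    · rw [Pi.single_eq_of_ne h, Pi.single_eq_of_ne h]
      simp

theorem bal_scaled {m n : ℕ} {ρ : Fin m → ℝ} {σ : Fin n → ℝ} (hσ : ∀ j, 0 < σ j)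
    {A : Fin m → Fin n → ℝ} {κ : ℝ} (h : Imbalance (scaled ρ σ A) κ) :
    MD.Bal (MD.rowsP ρ (fun j => (σ j)⁻¹) (Matrix.of A)) κ := by
  intro B l β hB hβ k
  refine h B l β ?_ ?_ k
  · have h1 := (LinearMap.linearIndependent_iff (E σ hσ : (Fin n → ℝ) →ₗ[ℝ] (Fin n → ℝ))
      (v := fun k => MD.rowsP ρ (fun j => (σ j)⁻¹) (Matrix.of A) (B k))
      (LinearEquiv.ker _)).2 hB
    have e : (fun k => normal (scaled ρ σ A) (B k)) =
        (E σ hσ : (Fin n → ℝ) →ₗ[ℝ] (Fin n → ℝ)) ∘
          fun k => MD.rowsP ρ (fun j => (σ j)⁻¹) (Matrix.of A) (B k) := by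
      funext k
      exact (E_rows hσ A (B k)).symm
    rw [e]
    exact h1
  · have h2 := congrArg (E σ hσ) hβ
    rw [map_sum, E_rows] at h2
    rw [h2]
    refine Finset.sum_congr rfl fun k _ => ?_
    rw [map_smul, E_rows]

theorem start_eq {m n : ℕ} (ρ : Fin m → ℝ) (σ : Fin n → ℝ) (A : Fin m → Fin n → ℝ)
    (B : Fin n → Fin m ⊕ Fin n) (μ : Fin n → ℝ) :
    MD.zz (MD.rowsP ρ (fun j => (σ j)⁻¹) (Matrix.of A)) B 0 μ = start ρ σ A B μ := by
  unfold MD.zz start
  refine Finset.sum_congr rfl fun k _ => ?_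
  rw [rowsP_eq, smul_smul, Pi.zero_apply, zero_add]

/-- **Real data.** -/
theorem real_part {m n : ℕ} (A : Fin m → Fin n → ℝ) (b : Fin m → ℝ) (c : Fin n → ℝ)
    (ρ : Fin m → ℝ) (σ : Fin n → ℝ) (κ : ℝ) (hρ : ∀ i, 0 < ρ i) (hσ : ∀ j, 0 < σ j)
    (hκ : Imbalance (scaled ρ σ A) κ) {v : Fin n → ℝ}
    (hv : v ∈ (Feasible A b).extremePoints ℝ) :
    (∃ B, IsBasis A b v B) ∧ ∀ B, IsBasis A b v B →
      (∀ᵐ μ : Fin n → ℝ, (∀ k, 0 ≤ μ k) → Optimal (Feasible A b) (start ρ σ A B μ) v ∧
        ∃ N x, ShadowRun (Feasible A b) c (start ρ σ A B μ) v N x ∧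
          (Optimal (Feasible A b) c (x N) ∨
            ∃ d, ShadowRay (Feasible A b) c (start ρ σ A B μ) (x N) d)) ∧
      ∫⁻ μ in Set.Icc (fun _ => (1 : ℝ)) (fun _ => 2),
        pivots (Feasible A b) c (start ρ σ A B μ) v ≤ ENNReal.ofReal (18 * (n : ℝ) ^ 4 * κ ^ 3) := by
  rw [feasible_eq] at hv ⊢
  constructor
  · obtain ⟨B, hBT, -, hB⟩ := MD.exists_basis (RS.arow A) (T := MD.tight (RS.arow A) (RS.arhs b) v)
      (fun x hx => MD.ext_pointed hv hx)
    exact ⟨B, hB, hBT⟩
  · rintro B ⟨hB, hBv⟩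
    have hσ' : ∀ j, 0 < (fun j => (σ j)⁻¹) j := fun j => inv_pos.2 (hσ j)
    have hB' := li_scaled hρ hσ (A := A) (B := B) hB
    have hBv' : ∀ k, B k ∈ MD.tight (MD.rowsP ρ (fun j => (σ j)⁻¹) (Matrix.of A))
        (MD.rhsP ρ b) v := by
      intro k
      show dotProduct (MD.rowsP ρ (fun j => (σ j)⁻¹) (Matrix.of A) (B k)) v = MD.rhsP ρ b (B k)
      have h1 := hBv k
      rw [rowsP_eq, smul_dotProduct, smul_eq_mul]
      have h2 : dotProduct (normal A (B k)) v = rhs n b (B k) := h1
      rw [h2]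
      rcases B k with i | j
      · rfl
      · show (σ j)⁻¹ * 0 = 0
        exact mul_zero _
    refine ⟨?_, ?_⟩
    · filter_upwards [ae_run hρ hσ' (Matrix.of A) b hB' hv hBv' c] with μ hμ hμ0
      obtain ⟨h1, N, x, h2, h3, h4⟩ := hμ hμ0
      rw [start_eq] at h1 h3 h4
      exact ⟨h1, N, x, ⟨h2, h3⟩, h4⟩
    · have hne : (MD.Poly (MD.rowsP ρ (fun j => (σ j)⁻¹) (Matrix.of A)) (MD.rhsP ρ b)).Nonempty :=
        ⟨v, by rw [poly_scaled hρ hσ']; exact hv.1⟩
      have hmean := mean_lp hρ hσ' (Matrix.of A) (bal_scaled hσ hκ) b hB' hne c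
      refine le_trans ?_ hmean
      have hmeas : MeasurableSet (Set.Icc (fun _ : Fin n => (1 : ℝ)) (fun _ => 2)) :=
        measurableSet_Icc
      refine lintegral_mono_ae ?_
      rw [ae_restrict_iff' hmeas]
      filter_upwards [ae_run hρ hσ' (Matrix.of A) b hB' hv hBv' c] with μ hμ hμb
      have hμ0 : ∀ k, 0 ≤ μ k := fun k => le_trans zero_le_one (hμb.1 k)
      obtain ⟨h1, -⟩ := hμ hμ0
      unfold pivots
      refine iSup₂_le fun N hN => ?_
      obtain ⟨x, hx0, hx⟩ := hN
      rw [start_eq] at h1 ⊢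
      have h5 := N588.TD.run_le hv h1 hx0 hx
      rw [poly_scaled hρ hσ']
      exact Nat.cast_le.2 (by
        show N ≤ (RS.Vis (MD.Poly (RS.arow (Matrix.of A)) (RS.arhs b)) c
          (start ρ σ A B μ)).ncard - 1
        have : (RS.Vis (MD.Poly (RS.arow (Matrix.of A)) (RS.arhs b)) c
          (start ρ σ A B μ)).ncard = (RS.Vis (MD.Poly (RS.arow A) (RS.arhs b)) c
          (start ρ σ A B μ)).ncard := rfl
        omega)

/-! ### Proofs: the bit model -/

/-- the lists of the scaled program -/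
def Program.inp (p : Program) : Pool.Agent.Y644.QS.Inp :=
  Y644.QS.inp (sA p.ρ p.σ p.A) (sb p.ρ p.b) (up p.σ p.c) (dn p.σ p.v)

theorem Program.size_eq (p : Program) : p.size = sz p.inp := bits_length _

theorem Program.vertex' (p : Program) :
    Y644.QS.re (dn p.σ p.v) ∈ Set.extremePoints ℝ
      (Y644.QS.polyhedron (sA p.ρ p.σ p.A) (sb p.ρ p.b)) := by
  have h := p.vertex
  rw [← ext_scaled p.ρ_pos p.σ_pos, D_re, up_dn p.σ p.σ_pos]
  exact h

theorem Program.query_eq (p : Program) (T : ℕ) (W : List (List ℕ)) :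
    NPC.J4H62SX.solveS (p.query T W) =
      (RS.runs p.inp T W).map (NPC.J4H62SX.unscale (List.ofFn p.σ)) := by
  have h := NPC.J4H62SX.solveS_bits T W (List.ofFn p.ρ) (List.ofFn p.σ)
    (Y644.QS.inp p.A p.b p.c p.v)
  rw [NPC.J4H62SX.scaleInp_inp p.ρ p.σ p.σ_pos] at h
  exact h

theorem Program.input_eq (p : Program) (a : ℕ) (W : List (List ℕ)) :
    NPC.J4H62SX.solveA a (p.input W) =
      (RS.runs p.inp (NPC.J4H62SX.bud a (sz p.inp)) W).map
        (NPC.J4H62SX.unscale (List.ofFn p.σ)) := by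
  have h := NPC.J4H62SX.solveA_bits a W (List.ofFn p.ρ) (List.ofFn p.σ)
    (Y644.QS.inp p.A p.b p.c p.v)
  rw [NPC.J4H62SX.scaleInp_inp p.ρ p.σ p.σ_pos] at h
  exact h

theorem Program.sound (p : Program) {T : ℕ} {W : List (List ℕ)} {o : Y644.QS.Outp}
    (h : RS.runs p.inp T W = some o) :
    p.Solved T (bits (some (NPC.J4H62SX.unscale (List.ofFn p.σ) o) : Option Y644.QS.Outp)) := by
  obtain ⟨w, -, ho⟩ := RS.runs_some h
  obtain ⟨N, x, d, rfl, h2, h3⟩ := RS.run1_sound p.vertex' ho
  have h4 := path_scaled p.ρ_pos p.σ_pos h2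
  refine ⟨N, _, _, ⟨h4.1, h4.2.1, h4.2.2.1, fun hd => ⟨(h4.2.1 N le_rfl).1, h4.2.2.2.1 hd⟩,
    h4.2.2.2.2⟩, h3, ?_⟩
  rw [NPC.J4H62SX.unscale_out]
  rfl

theorem Program.bal (p : Program) {κ : ℝ} (h : p.Balanced κ) :
    RS.Imb (sA p.ρ p.σ p.A) κ := by
  unfold RS.Imb
  have e : RS.arow (RS.Ar (sA p.ρ p.σ p.A)) =
      normal (scaled (fun i => (p.ρ i : ℝ)) (fun j => (p.σ j : ℝ)) fun i j => (p.A i j : ℝ)) := by
    funext q
    rcases q with i | j
    · funext j
      show ((sA p.ρ p.σ p.A i j : ℚ) : ℝ) = (p.ρ i : ℝ) * (p.A i j : ℝ) * (p.σ j : ℝ)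
      unfold sA
      push_cast
      ring
    · rfl
  rw [e]
  exact h

theorem Program.valid (p : Program) {κ : ℝ} {T : ℕ} (h : p.Balanced κ) (hT : 1 ≤ T)
    (hκ : 72 * (p.n : ℝ) ^ 4 * κ ^ 3 ≤ T) : RS.Valid p.inp T :=
  ⟨p.m, p.n, _, _, _, _, κ, rfl, p.vertex', p.bal h, hκ, hT⟩

/-- subdeterminants -/
theorem subdet {m n : ℕ} (A : Matrix (Fin m) (Fin n) ℤ) (Δ : ℤ)
    (hA : ∀ (k : ℕ) (f : Fin k → Fin m) (g : Fin k → Fin n), |(A.submatrix f g).det| ≤ Δ) :
    Imbalance (fun i j => (A i j : ℝ)) Δ := by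
  have h := MD.bal_of_det A hA
  refine MD.bal_of_signs h id (Sum.elim (fun _ => 1) (fun _ => -1)) ?_ ?_
  · rintro (i | j) <;> simp
  · rintro (i | j)
    · simp [normal, MD.stack]
      rfl
    · simp [normal, MD.stack]

theorem Program.size_pos (p : Program) : 0 < p.size := by
  rw [p.size_eq]
  exact sz_pos _

theorem Program.n_le (p : Program) : p.n ≤ p.size := by
  have h : p.m + p.n < sz p.inp := Y644.QS.le_sz_inp
  rw [p.size_eq]
  omega

theorem budget (p : Program) {a : ℕ} {κ : ℝ} (h : κ ≤ (p.size : ℝ) ^ a) :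
    72 * (p.n : ℝ) ^ 4 * κ ^ 3 ≤ ((72 * p.size ^ 4 * (p.size ^ a) ^ 3 : ℕ) : ℝ) := by
  have h1 : κ ^ 3 ≤ ((p.size : ℝ) ^ a) ^ 3 := (Odd.strictMono_pow (by decide)).monotone h
  have h2 : (p.n : ℝ) ≤ p.size := by exact_mod_cast p.n_le
  have h3 : (0 : ℝ) ≤ ((p.size : ℝ) ^ a) ^ 3 := by positivity
  push_cast
  calc 72 * (p.n : ℝ) ^ 4 * κ ^ 3 ≤ 72 * (p.n : ℝ) ^ 4 * ((p.size : ℝ) ^ a) ^ 3 :=
        mul_le_mul_of_nonneg_left h1 (by positivity)
    _ ≤ 72 * (p.size : ℝ) ^ 4 * ((p.size : ℝ) ^ a) ^ 3 := by gcongr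

theorem input_query (p : Program) (a : ℕ) (W : List (List ℕ)) :
    bits (NPC.J4H62SX.solveA a (p.input W)) =
      bits (NPC.J4H62SX.solveS (p.query (72 * p.size ^ 4 * (p.size ^ a) ^ 3) W)) := by
  rw [p.input_eq, p.query_eq, p.size_eq]
  rfl

theorem answers (p : Program) (T : ℕ) (W : List (List ℕ)) :
    bits (NPC.J4H62SX.solveS (p.query T W)) = noAnswer ∨
      p.Solved T (bits (NPC.J4H62SX.solveS (p.query T W))) := by
  rw [p.query_eq]
  cases h : RS.runs p.inp T W with
  | none => exact Or.inl rfl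
  | some o => exact Or.inr (p.sound h)

theorem bad_of_not_good {L : ℕ} {ω : Table L}
    (h : ¬ ω.Good fun s => bits (NPC.J4H62SX.solveS s)) :
    ∃ (x : Y644.QS.Inp) (T : ℕ), RS.Valid x T ∧ sz x ≤ L ∧ RS.runs x T (RS.wtab ω) = none := by
  unfold Table.Good at h
  push Not at h
  obtain ⟨p, κ, T, h1, h2, h3, h4, h5⟩ := h
  refine ⟨p.inp, T, p.valid h2 h3 h4, by rw [← p.size_eq]; exact h1, ?_⟩
  cases h6 : RS.runs p.inp T (RS.wtab ω) with
  | none => rfl
  | some o =>
    exfalso
    apply h5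
    show p.Solved T (bits (NPC.J4H62SX.solveS (p.query T (RS.wtab ω))))
    rw [p.query_eq, h6]
    exact p.sound h6

open Classical in
theorem most_good (L : ℕ) : 2 ^ L * (Finset.univ.filter fun ω : Table L =>
    ¬ ω.Good fun s => bits (NPC.J4H62SX.solveS s)).card ≤ Fintype.card (Table L) := by
  have h1 := RS.card_all L
  have h2 : Fintype.card (Table L) = ((2 ^ RS.kb L) ^ L) ^ (2 * L + 1) := by
    unfold Table RS.kb
    rw [Fintype.card_fun, Fintype.card_fun, Fintype.card_fin, Fintype.card_fin, Fintype.card_fin]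
  rw [h2]
  refine le_trans (Nat.mul_le_mul_left _ (Finset.card_le_card ?_)) h1
  intro ω hω
  rw [Finset.mem_filter] at hω
  exact Finset.mem_filter.2 ⟨Finset.mem_univ _, bad_of_not_good hω.2⟩

theorem exists_good (L : ℕ) : ∃ ω : Table L, ω.Good fun s => bits (NPC.J4H62SX.solveS s) := by
  classical
  rcases Nat.eq_zero_or_pos L with hL | hL
  · subst hL
    refine ⟨fun _ _ => ⟨0, by positivity⟩, fun p κ T h => ?_⟩
    have := p.size_pos
    omega
  · by_contra hcon
    push Not at hcon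
    have h1 := most_good L
    have h2 : (Finset.univ.filter fun ω : Table L =>
        ¬ ω.Good fun s => bits (NPC.J4H62SX.solveS s)) = Finset.univ :=
      Finset.filter_true_of_mem fun ω _ => hcon ω
    rw [h2, Finset.card_univ] at h1
    have h3 : 0 < Fintype.card (Table L) := by
      have : Nonempty (Table L) := ⟨fun _ _ => ⟨0, by positivity⟩⟩
      exact Fintype.card_pos
    have h4 : 2 ≤ 2 ^ L := by
      calc 2 = 2 ^ 1 := rfl
        _ ≤ 2 ^ L := Nat.pow_le_pow_right (by norm_num) hL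
    have h5 : 2 * Fintype.card (Table L) ≤ 2 ^ L * Fintype.card (Table L) :=
      Nat.mul_le_mul_right _ h4
    omega

open Classical in
/-- **The shadow vertex rule with a random start for bounded circuit imbalance.** -/
theorem result :
    -- (1) real data: the expected number of pivots
    (∀ (m n : ℕ) (A : Fin m → Fin n → ℝ) (b : Fin m → ℝ) (c : Fin n → ℝ)
      (ρ : Fin m → ℝ) (σ : Fin n → ℝ) (κ : ℝ), (∀ i, 0 < ρ i) → (∀ j, 0 < σ j) →
      Imbalance (scaled ρ σ A) κ → ∀ v ∈ (Feasible A b).extremePoints ℝ,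
      (∃ B, IsBasis A b v B) ∧ ∀ B, IsBasis A b v B →
        (∀ᵐ μ : Fin n → ℝ, (∀ k, 0 ≤ μ k) → Optimal (Feasible A b) (start ρ σ A B μ) v ∧
          ∃ N x, ShadowRun (Feasible A b) c (start ρ σ A B μ) v N x ∧
            (Optimal (Feasible A b) c (x N) ∨
              ∃ d, ShadowRay (Feasible A b) c (start ρ σ A B μ) (x N) d)) ∧
        ∫⁻ μ in Set.Icc (fun _ => (1 : ℝ)) (fun _ => 2),
          pivots (Feasible A b) c (start ρ σ A B μ) v ≤
            ENNReal.ofReal (18 * (n : ℝ) ^ 4 * κ ^ 3)) ∧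
    -- (2) the bit model: one algorithm with a table for all linear programs
    (∃ g : List Bool → List Bool, PolyTime g ∧
      -- all answers are correct
      (∀ (p : Program) (T : ℕ) (W : List (List ℕ)),
        g (p.query T W) = noAnswer ∨ p.Solved T (g (p.query T W))) ∧
      -- most tables are good for all programs
      (∀ L : ℕ, 2 ^ L * (Finset.univ.filter fun ω : Table L => ¬ ω.Good g).card ≤
        Fintype.card (Table L)) ∧
      (∀ L : ℕ, ∃ ω : Table L, ω.Good g) ∧
      -- polynomial imbalance: polynomial time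
      ∀ a : ℕ, ∃ h : List Bool → List Bool, PolyTime h ∧
        ∀ (p : Program) (W : List (List ℕ)),
          h (p.input W) = g (p.query (72 * p.size ^ 4 * (p.size ^ a) ^ 3) W) ∧
          ∀ κ : ℝ, p.Balanced κ → κ ≤ (p.size : ℝ) ^ a → ∀ ω : Table p.size, ω.Good g →
            p.Solved (72 * p.size ^ 4 * (p.size ^ a) ^ 3) (h (p.input ω.list))) ∧
    -- (3) integral matrices with subdeterminants at most `Δ`
    (∀ (m n : ℕ) (A : Matrix (Fin m) (Fin n) ℤ) (Δ : ℤ),
      (∀ (k : ℕ) (f : Fin k → Fin m) (g : Fin k → Fin n), |(A.submatrix f g).det| ≤ Δ) →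
      Imbalance (fun i j => (A i j : ℝ)) Δ) := by
  refine ⟨fun m n A b c ρ σ κ hρ hσ hκ v hv => real_part A b c ρ σ κ hρ hσ hκ hv,
    ⟨fun s => bits (NPC.J4H62SX.solveS s), NPC.J4H62SX.poly_solveS, answers, most_good,
      exists_good, fun a => ⟨fun s => bits (NPC.J4H62SX.solveA a s), NPC.J4H62SX.poly_solveA a,
        fun p W => ⟨?_, fun κ hκ hle ω hω => ?_⟩⟩⟩, fun m n A Δ hA => subdet A Δ hA⟩
  · exact input_query p a W
  · have hq := input_query p a ω.list
    show p.Solved _ (bits (NPC.J4H62SX.solveA a (p.input ω.list)))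
    rw [hq]
    refine hω p κ _ le_rfl hκ ?_ (budget p hle)
    have hs := p.size_pos
    have : 0 < 72 * p.size ^ 4 * (p.size ^ a) ^ 3 := by positivity
    exact this

end Pool.Agent.Results.MP_4d246d_lc.BoundedImbalance
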