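import Pool.Agent.J4H23.Lex.Final
set_option autoImplicit false

/-!
# One deterministic local pivot rule which is quasi-polynomial on all real linear programs and
polynomial on those over products of simplices, and on wider classes

For all `m ≥ 1` and `n` there is one deterministic pivot rule with the following property. It sees
only the present basis (a set of `n` tight constraints) and which of the constraints in it can be left
so that the objective function increases (the nonbasic variables with positive reduced costs), and
it remembers what it has seen before (`seenB`). It knows neither the coefficients of the linear program
nor the values of the objective function nor the polyhedron. The constraint which enters the basis is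
given by the lexicographic ratio test. On every real linear program `max c q`, `A q ≤ b` with `n`
variables and `m` constraints, which may be degenerate or unbounded, the simplex method with this rule
reaches, from every vertex, an optimal vertex or an unbounded edge on which the objective function
increases (`IsRun`). Put `M = m + 1`. The number `T` of all pivots (degenerate ones included) is

* at most `P = n + 12 M ^ 5 n (n + 1)` if the objective function is bounded and the bases are those of
  a product of simplices (`BlockBases`: the constraints are divided into blocks, and each basis
  contains all constraints of each block except one). This covers all linear programs over
  (deformed) cubes, like the examples of Klee and Minty, Jeroslow, Goldfarb and Sit, Murty, and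
  Zadeh's, and all deformed products of simplices, like the linear programs of Markov decision
  processes, which are the source of the lower bounds for Zadeh's rule, Random Facet and Random Edge;
* at most `P + 20 (M + 1) ^ 2 (50 M ^ 7) ^ (2 k + 2) 2 ^ ((k + 1) (2 r + 3) + r + 1)` if the polyhedron
  is the intersection with `r` half-spaces of a product of polyhedra such that the dimension of each
  factor is smaller by at most `k` than the number of its constraints (`ProductBases`). So for constant
  `k` and `r = O (log m)` this is polynomial; for example, for all linear programs over (deformed)
  products of simplices with `O (log m)` further constraints;
* at most `M ^ (κ D (1 + e + f))` if the matrix `A` has a nested block structure of depth `D` except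
  for `e` rows and `f` columns, and at most `(M 2 ^ e) ^ κ D` if `f = 0` (`Nested`: after deletion of
  at most one row, the matrix decomposes into blocks without common rows and columns, and each of the
  blocks has a nested block structure of depth `D - 1`; a structure of depth `0` has no nonzero
  entries). So this is polynomial for constant `D` and `e = O (log m)`, for all right hand sides and
  objective functions;
* at most `P + 5 (M + 1) ^ 2 (75 M ^ 7) ^ (⌊log₂ M⌋ + 1)` for all linear programs.

There is no bound on the computing time between the pivots.

For comparison: on abstract objective functions on the `n`-cube, every rule of this kind needs
`2 ^ (n ^ (1/2 - o(1)))` pivots on some of them (starting result `SquareRootExponent`). So there is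
no way to transfer such lower bounds to linear programs over cubes: on those, local combinatorial
information is enough for a polynomial number of pivots. No polynomial upper bound was known for any
local rule, deterministic or randomized; the best known bound for cubes was that of Random Facet,
`exp (O (√n))`. The starting result `QuasiPolynomial` has a bound like the last one for nondegenerate
linear programs with bounded objective function. The starting result `NestedBlocks` is a
polynomial-time version of the simplex method for the third class in the bit model; it computes
optimal vertices by other algorithms before it goes there.

Proof. The rule keeps the list of all combinatorial types of nondegenerate linear programs (sets of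
vertices and improving sets) which agree with what it has seen; there are `exp (O (M ^ 4))` types by
Warren's theorem. (Degenerate linear programs are perturbed, and a constraint `c q ≤ μ` with large `μ`
is added.) The goal on a face `E` is to reach the optimal vertex of this face. In a product of
simplices, if the present vertex is not optimal on `E`, some improving edge enters a facet of `E`
which contains an optimal vertex of `E`. The rule takes an edge for which the entered facet is the
right one for the largest number of types, at least for a fraction `1 / (2 M)`. Then it solves this
facet recursively, and it does this with all types, not only with those for which the guess is
right. The optimal vertex of the facet is optimal on `E`, or all types for which the guess was right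
are refuted, and we go on from this vertex. The point is that the costs of the recursive calls are
charged to the types which these calls refute, so that the costs are additive: if `k` types are
reduced to `x`, the costs on a face of dimension `d` are at most
`d + 2 M (d (d + 1) / 2) (log k - log x)`.

In general the rule also uses walks which stop as soon as they meet a constraint outside a set `S`
(this is a walk in a relaxation of the linear program). The optimal vertices with tight constraints
in `S` lie on the facets in a set `Z`, and the next walk avoids also the constraints in `Z`, until it
meets one of them; this is a facet with an optimal vertex. In the second and third class a bounded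
number of such relaxations leaves only few vertices. For instance, if the dimension of a block is
`d` and `d + k` of its constraints are present, then each relaxation removes the `d` constraints of
the block which are tight at the optimal vertex, up to few exceptions, so that `2 k + 2` relaxations
are possible for few blocks only. The rule tries all depths of the relaxations with increasing costs.
-/

namespace Pool.Agent.Results.MP_4d246d_lc.LocalPivotRule

open Finset Matrix Pool.Agent.N597.QP Pool.Agent.J4H23.Lex

/-- There are numbers `κ D` such that for all `m ≥ 1` and `n` there is a deterministic pivot rule (a
function of the list of the pairs (basis, constraints in it which can be left so that the objective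
function increases), the present one first) such that for all real `A`, `b`, `c` with `m` constraints
and `n` variables every vertex has a lexicographically feasible basis, and from every such basis the
simplex method with this rule makes `T` pivots until it finds an optimal vertex or an unbounded
improving edge. The number `T` is polynomial for products of simplices, for intersections of
`O (log m)` half-spaces with products of polyhedra which are given by at most `k` more constraints than
they have dimensions, and for matrices with a nested block structure of bounded depth except for
`O (log m)` rows; it is always quasi-polynomial. -/
theorem result :
    ∃ κ : ℕ → ℕ, ∀ m n : ℕ, 1 ≤ m →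
      ∃ rule : List (Finset (Fin m) × Finset (Fin m)) → Fin m,
        ∀ (A : Fin m → Fin n → ℝ) (b : Fin m → ℝ) (c : Fin n → ℝ),
          (∀ q₀, IsVertex A b q₀ → ∃ B₀, LexBasis A b B₀ ∧ B₀ ⊆ tight A b q₀) ∧
          ∀ B₀, LexBasis A b B₀ →
          ∃ (T : ℕ) (B : ℕ → Finset (Fin m)) (q : ℕ → Fin n → ℝ), IsRun rule A b c B₀ T B q ∧
            ((∃ μ, ∀ p, Feas A b p → c ⬝ᵥ p ≤ μ) → BlockBases (LexBasis A b) →
              T ≤ n + 12 * (m + 1) ^ 5 * (n * (n + 1))) ∧
            (∀ k r, ProductBases (LexBasis A b) n k r →
              T ≤ n + 12 * (m + 1) ^ 5 * (n * (n + 1)) + 20 * (m + 2) ^ 2 *
                ((50 * (m + 1) ^ 7) ^ (2 * k + 2) * 2 ^ ((k + 1) * (2 * r + 3) + (r + 1)))) ∧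
            (∀ (D : ℕ) (X : Finset (Fin n)) (R : Finset (Fin m)), Nested A D X R →
              T ≤ (m + 1) ^ (κ D * (1 + (m - R.card) + (n - X.card))) ∧
              (X = univ → T ≤ ((m + 1) * 2 ^ (m - R.card)) ^ κ D)) ∧
            T ≤ n + 12 * (m + 1) ^ 5 * (n * (n + 1)) +
              5 * (m + 2) ^ 2 * (75 * (m + 1) ^ 7) ^ (Nat.log 2 (m + 1) + 1) := by
  refine ⟨kap, fun m n hm => ?_⟩
  obtain ⟨rule, h⟩ := run_main m n hm
  refine ⟨rule, fun A b c => ⟨fun q₀ hq₀ => exists_start hq₀, fun B₀ hB₀ => ?_⟩⟩
  obtain ⟨T, B, q, hrun, β, μ, hA, hg, h4, h5, h6⟩ := h A b c B₀ hB₀
  obtain ⟨h7, -, h9⟩ := bounds hg h4 h5
  have hnm : n ≤ m := by
    have h1 := card_le_univ B₀
    rw [hB₀.card, Fintype.card_fin] at h1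
    exact h1
  refine ⟨T, B, q, hrun, h7, fun k r hkr => ?_, fun D X R hn => nested_bounds hm hnm h5 hn, h6⟩
  have := h9 k r hkr
  have e : (k + 1) * (2 * (r + 1) + 1) + (r + 1) = (k + 1) * (2 * r + 3) + (r + 1) := by ring
  rw [e] at this
  exact this

end Pool.Agent.Results.MP_4d246d_lc.LocalPivotRule
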