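import Pool.Agent.J4H72.LV.Run
set_option autoImplicit false

/-!
# Looking ahead does not make deterministic pivot rules polynomial on abstract cubes

`flip x i` is the neighbour of the vertex `x` of the `n`-cube in direction `i`, and `improving f x` the
set of directions `i` with `f x < f (flip x i)`. In the starting result `AllDeterministicRules` a pivot
rule sees the vertices visited so far, with their objective values and their sets of improving
directions; so it does not see the objective values of the neighbours, which the largest improvement
rule needs. Here the rule may look ahead: from every visited vertex it sees all vertices that can be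
reached by at most `ρ` improving pivots (`Reach`), with their objective values and their sets of
improving directions (`view`). It may use all it has seen in any way, without any bound on memory or
computation. If `544 (ρ + 2) (k + 1) ^ 3 (k + 1 + (ρ + 2) (log₂ n + 1)) ≤ n` then for every such rule
and every start vertex there is an injective objective function with exactly one local maximum on
every face for which the rule makes at least `2 ^ k` pivots, although the maximum is reached from every
vertex by at most `n` improving pivots. So for constant `ρ` the number of pivots is `2 ^ (c n ^ (1/4))`;
`ρ = 1` covers the largest improvement rule with any tie-breaking, memory and variants. The bound is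
superpolynomial even for `ρ = n ^ (1/2 - ε)`, when the rule sees far more than polynomially many vertices
before each pivot.

Proof (the idea to look upwards only, the re-activation step at the end of an epoch, and a hint for the
values are due to helper78 of our team). As in `AllDeterministicRules` (`Pool/Agent/TH70/AR/`) an
adversary answers the rule; its walk consists of nested epochs, and an epoch of level `k + 1` consists
of two epochs of level `k` and a wiping phase, which freezes few coordinates so that all that has been
seen lies outside of the frozen face. With look-ahead the adversary cannot react to single pivots,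
because the rule has already seen the next vertices. So it shows uniform orientations (all directions of
a set `T` of active directions are improving until they have been used) and changes them only beyond a
*front*: the directions are changed in the region in which at least `ρ + 1` of the active directions
have been used since the front was set. The `ρ + 1` directions used to cross the front are frozen. In the
wiping phase the adversary waits for `N₀ ≈ n / k` pivots before it sets a front; if one of these pivots
wipes a good part of the records, its direction is frozen too; if not, a potential drops by `N₀`.

The values. A vertex seen before the `j`-th and beyond the `(j-1)`-st front has the level `j (n + 1)` plus the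
number of coordinates in which it agrees with the target of the `j`-th uniform orientation; the level and
the name of the vertex determine the value which the adversary announces. In the final orientation a seen
vertex can be reached from another one only if its level is larger (`comp_mono`, `count_late`), so some
objective function has these values.
-/

namespace Pool.Agent.Results.MP_4d246d_lc.LookAhead

open Finset

variable {n : ℕ}

/-- the neighbour of the vertex `x` in direction `i` -/
def flip (x : Fin n → Bool) (i : Fin n) : Fin n → Bool := Function.update x i (!x i)

/-- the improving directions at the vertex `x` -/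
def improving (f : (Fin n → Bool) → ℕ) (x : Fin n → Bool) : Finset (Fin n) :=
  univ.filter fun i => f x < f (flip x i)

/-- `Reach f m x z`: the vertex `z` is reached from `x` by at most `m` improving pivots -/
def Reach (f : (Fin n → Bool) → ℕ) : ℕ → (Fin n → Bool) → (Fin n → Bool) → Prop
  | 0, x, z => z = x
  | m + 1, x, z => Reach f m x z ∨ ∃ y, Reach f m x y ∧ ∃ i ∈ improving f y, z = flip y i

open Classical in
/-- what is seen from the vertex `x` with look-ahead `ρ`: for every vertex `z` reached by at most `ρ`
improving pivots the pair (improving directions of `z`, value of `z`), for the other vertices nothing -/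
noncomputable def view (f : (Fin n → Bool) → ℕ) (ρ : ℕ) (x : Fin n → Bool) :
    (Fin n → Bool) → Option (Finset (Fin n) × ℕ) :=
  fun z => if Reach f ρ x z then some (improving f z, f z) else none

/-- everything seen along `w 0, …, w t`: the pairs (visited vertex, view), the current vertex first -/
noncomputable def seen (f : (Fin n → Bool) → ℕ) (ρ : ℕ) (w : ℕ → (Fin n → Bool)) :
    ℕ → List ((Fin n → Bool) × ((Fin n → Bool) → Option (Finset (Fin n) × ℕ)))
  | 0 => [(w 0, view f ρ (w 0))]
  | t + 1 => (w (t + 1), view f ρ (w (t + 1))) :: seen f ρ w t

lemma improving_eq (f : (Fin n → Bool) → ℕ) : improving f = TH70.AR.improving f := rfl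

lemma reach_eq (f : (Fin n → Bool) → ℕ) (m : ℕ) (x z : Fin n → Bool) :
    Reach f m x z ↔ J4H72.LA.Rch (TH70.AR.improving f) m x z := by
  induction m generalizing z with
  | zero => exact Iff.rfl
  | succ m ih =>
    simp only [Reach, J4H72.LA.Rch, ih]
    rfl

lemma view_eq (f : (Fin n → Bool) → ℕ) (ρ : ℕ) (x : Fin n → Bool) :
    (x, view f ρ x) = J4H72.LV.viewR f ρ x := by
  classical
  unfold J4H72.LV.viewR
  congr 1
  funext z
  simp only [view, J4H72.LV.lookV, reach_eq]
  rfl

lemma seen_eq (f : (Fin n → Bool) → ℕ) (ρ : ℕ) (w : ℕ → (Fin n → Bool)) (t : ℕ) :
    seen f ρ w t = J4H72.LV.seenR f ρ w t := by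
  induction t with
  | zero => simp only [seen, J4H72.LV.seenR, view_eq]
  | succ t ih => simp only [seen, J4H72.LV.seenR, view_eq, ih]

/-- **Looking ahead does not help deterministic pivot rules on abstract cubes.** Let
`544 (ρ + 2) (k + 1) ^ 3 (k + 1 + (ρ + 2) (log₂ n + 1)) ≤ n`. A rule sees the list of the pairs (visited
vertex `x`, the map which shows the set of improving directions and the objective value of every vertex
that can be reached from `x` by at most `ρ` improving pivots), the current one first, and names an
improving direction. For every rule and every start vertex `x₀` of the `n`-cube there is an injective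
objective function `f` with exactly one local maximum on every face, with improving paths of at most `n`
pivots from every vertex to the maximum, such that the rule, started at `x₀`, reaches the maximum after
`L ≥ 2 ^ k` pivots. -/
theorem result (n k ρ : ℕ)
    (hn : 544 * (ρ + 2) * (k + 1) ^ 3 * (k + 1 + (ρ + 2) * (Nat.log 2 n + 1)) ≤ n)
    (rule : List ((Fin n → Bool) × ((Fin n → Bool) → Option (Finset (Fin n) × ℕ))) → Fin n)
    (hrule : ∀ (x : Fin n → Bool) (g : (Fin n → Bool) → Option (Finset (Fin n) × ℕ))
      (l : List ((Fin n → Bool) × ((Fin n → Bool) → Option (Finset (Fin n) × ℕ))))
      (S : Finset (Fin n)) (c : ℕ), g x = some (S, c) → S.Nonempty → rule ((x, g) :: l) ∈ S)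
    (x₀ : Fin n → Bool) :
    ∃ (f : (Fin n → Bool) → ℕ) (L : ℕ) (w : ℕ → (Fin n → Bool)),
      Function.Injective f ∧
      (∀ (U : Finset (Fin n)) (x : Fin n → Bool), ∃! y : Fin n → Bool,
        (∀ i, i ∉ U → y i = x i) ∧ ∀ i ∈ U, f (flip y i) < f y) ∧
      (∀ x : Fin n → Bool, ∃ (m : ℕ) (v : ℕ → (Fin n → Bool)), m ≤ n ∧ v 0 = x ∧
        (∀ t < m, ∃ i ∈ improving f (v t), v (t + 1) = flip (v t) i) ∧
        improving f (v m) = ∅) ∧
      w 0 = x₀ ∧
      (∀ t < L, (improving f (w t)).Nonempty ∧ w (t + 1) = flip (w t) (rule (seen f ρ w t))) ∧
      improving f (w L) = ∅ ∧ 2 ^ k ≤ L := by
  obtain ⟨f, h1, h2, L, w, h3, h4, h5, h6⟩ := J4H72.LV.slowV hn rule hrule x₀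
  refine ⟨f, L, w, h1, h2, TH70.AR.short_path h2, h3, fun t ht => ?_, h5, h6⟩
  rw [seen_eq]
  exact h4 t ht

end Pool.Agent.Results.MP_4d246d_lc.LookAhead
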