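import Pool.Agent.J4H23.Fam.GameMain
set_option autoImplicit false

/-!
# Strategy improvement with polynomially many switches, by a rule which sees only the improving
switches

Turn-based stochastic games: there are `r` positions of the maximiser and `l` positions of the
minimiser, with `k` actions each; the action `a` at `s` gives the payoff `ρ s a` and leads to the
position `t` with the probability `P s a t`, and with positive probability the game stops there
(`∑ t, P s a t < 1`; this includes all discounted games, with the discount factor as close to `1` as
we like, and so mean payoff games and parity games by the well-known reductions). For `l = 0` these
are the (discounted) Markov decision processes. Strategy improvement, or policy iteration, with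
single switches: for the present strategy `σ` of the maximiser, let `v` be the values if the
minimiser replies optimally (`IsValue`); then change `σ` at one position, by an improving switch.
The question is which improving switch should be made.

For all `r, k ≥ 1` and `l` we give one deterministic rule, which sees only the present and the past
strategies and their improving switches, and neither the game nor the values, such that in every
game, from every strategy, an optimal strategy is reached by at most
`r k + 3 (r k) ^ 3 ((r + l) k) ^ 2 (r + l + 1)` improving switches. For Markov decision processes the
bound is `r k + 3 (r k) ^ 5 (r + 1)`. It does not depend on the discount factor. There is no bound on
the computing time between the switches.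

For Markov decision processes, single switches are the pivots of the simplex method for the linear
program of the process. The known exponential and subexponential lower bounds for the rules of
Dantzig, Cunningham and Zadeh and for Random Facet and Random Edge come from such processes (Friedmann;
Friedmann, Hansen and Zwick; Avis and Friedmann; Disser and Hopp). The theorem shows that no such
construction can work against all rules, even if the rule sees only the combinatorial data. For
`l > 0` there are no linear programs, so this is not contained in the result `LocalPivotRule` on linear
programs over products of simplices; for `l = 0` it sharpens a special case of it.

Proof. The improving sets are determined by the signs of the polynomials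
`det² (q s a - v s)`, by Cramer's rule and because `v` is the value of a joint strategy from which
the minimiser does not want to deviate; so there are only `exp (3 ((r + l) k) ^ 2 (r + l + 1))` of
them by Warren's theorem. The sum of the values is an abstract objective function on the product of
simplices, whose improving neighbours are the improving switches. The rule keeps the list of all
improving sets of games which agree with what it has seen; it makes the switch for which the entered
facet contains an optimal vertex for the largest number of types, and then solves this facet
recursively with all types. Either the optimal vertex of the facet is optimal on the face, or all
types for which the guess was right are refuted, and the costs are additive in the logarithm of the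
number of types.
-/

namespace Pool.Agent.Results.MP_4d246d_lc.StrategyImprovement

open Pool.Agent.J4H23.Fam.Game

/-- Let `r, k ≥ 1`. There is a rule (a function of the list of the present and past strategies of the
maximiser with their improving switches) such that in every turn-based stochastic game with `r` and
`l` positions and `k` actions which stops with positive probability in every step, and for every
strategy `σ₀`: if we start with `σ₀` and make the switches named by the rule, then these are
improving switches, the values increase, and after at most
`r k + 3 (r k) ^ 3 ((r + l) k) ^ 2 (r + l + 1)` switches the strategy is optimal. -/
theorem result (r l k : ℕ) (hr : 1 ≤ r) (hk : 1 ≤ k) :
    ∃ rule : List ((Fin r → Fin k) × Finset (Fin r × Fin k)) → Fin r × Fin k,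
      ∀ (P : Pos r l → Fin k → Pos r l → ℝ) (ρ : Pos r l → Fin k → ℝ),
        (∀ s a t, 0 ≤ P s a t) → (∀ s a, ∑ t, P s a t < 1) → ∀ σ₀ : Fin r → Fin k,
        ∃ (T : ℕ) (σ : ℕ → Fin r → Fin k) (v : ℕ → Pos r l → ℝ), σ 0 = σ₀ ∧
          (∀ t, IsValue P ρ (σ t) (v t)) ∧
          (∀ t < T, rule (seenG P ρ σ v t) ∈ improving P ρ (v t) ∧
            σ (t + 1) = Function.update (σ t) (rule (seenG P ρ σ v t)).1
              (rule (seenG P ρ σ v t)).2 ∧ v t < v (t + 1)) ∧
          (∀ σ' v', IsValue P ρ σ' v' → v' ≤ v T) ∧
          T ≤ r * k + 3 * (r * k) ^ 3 * ((r + l) * k) ^ 2 * (r + l + 1) :=
  policy r l k hr hk

end Pool.Agent.Results.MP_4d246d_lc.StrategyImprovement
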